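import Mathlib
import Pool.Agent.H.MP_1dfcde_lc.A

set_option autoImplicit false

namespace Pool.Agent.Results.MP_1dfcde_lc.Yes

open Set Cardinal Pool.Agent.H.MP_1dfcde_lc Pool.Agent.H.MP_43e680_lc Submodule

theorem result (F : Type) [Field F] [Countable F] (h : Dia) :
    (∃ 𝒜 : Set (Submodule F (ℕ →₀ F)), Maximal BAD 𝒜 ∧ #𝒜 = ℵ₁) ∧ avec F = ℵ₁ := by
  obtain ⟨𝒜, h1, h2, h3, h4⟩ := fam (F := F) h
  have nb : ∀ X : Submodule F (ℕ →₀ F), Block X → ¬ FiniteDimensional F X :=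
    fun _ ⟨x, h, e⟩ => nf h fun n => e ▸ subset_span ⟨n, rfl⟩
  have m : Maximal AD 𝒜 := ⟨⟨fun X h => nb X (h1.1 X h), h1.2⟩, fun ℬ b c Y hY => by
    obtain ⟨y, y1, y2⟩ := sub (b.1 Y hY)
    obtain ⟨X, x1, x2⟩ := h4 _ ⟨y, y1, rfl⟩
    by_contra d
    have := b.2 (c x1) hY fun e => d (e ▸ x1)
    exact x2 (finiteDimensional_of_le (inf_le_inf_left X (span_le.2 (range_subset_iff.2 y2))))⟩
  have n : ℵ₁ ≤ nonM := by
    refine le_csInf ⟨_, univ, fun h => ?_, rfl⟩ ?_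
    · simpa using (dense_of_mem_residual h).nonempty
    rintro _ ⟨A, h, rfl⟩
    exact not_lt.1 fun c => h (Pool.Agent.H.MP_a16b96_lc.cm ((countable_iff_lt_aleph_one A).2 c))
  have e := h2.antisymm (n.trans (main m h3))
  have i : 𝒜.Infinite := infinite_coe_iff.1 (infinite_iff.2 (e ▸ aleph0_le_aleph 1))
  refine ⟨⟨𝒜, ⟨h1, fun ℬ b c Y hY => ?_⟩, e⟩, le_antisymm (csInf_le' ⟨𝒜, m, i, e⟩)
    (le_csInf ⟨_, 𝒜, m, i, rfl⟩ ?_)⟩
  · exact m.2 ⟨fun X h => nb X (b.1 X h), b.2⟩ c hY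
  · rintro _ ⟨𝒜, h1, h2, rfl⟩
    exact n.trans (main h1 h2.nontrivial)

end Pool.Agent.Results.MP_1dfcde_lc.Yes
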